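import Mathlib

set_option autoImplicit false

/-!
# Graphs with a prescribed number of irreducible FAT colorings

We show that for every positive integer `b` there is a finite, simple, connected graph having
exactly `b` irreducible FAT colorings (colorings are counted as partitions of the vertex set, up to
automorphisms of the graph).

For `b = 1` take `K_2`.  For `b = n + 2` take the 4-cycle, replace every edge by `2n+1` parallel
edges and subdivide every edge once.
-/

namespace Pool.Agent.Results.MP_48b99b_co.IrreducibleFAT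

open Set

/-- `e(v,S)`: the number of neighbours of `v` lying in `S`. -/
noncomputable def nbrsIn {V : Type} (G : SimpleGraph V) (v : V) (S : Set V) : ℕ :=
  (G.neighborSet v ∩ S).ncard

/-- The degree of `v`. -/
noncomputable def deg {V : Type} (G : SimpleGraph V) (v : V) : ℕ := (G.neighborSet v).ncard

/-- A `k`-coloring `c` (not necessarily proper) is FAT if for some `α ∈ [0,1]`, with
`β = 1 - (k-1) α`, every vertex `v` has exactly `α deg v` neighbours in each colour class not
containing `v` and exactly `β deg v` neighbours in its own colour class. -/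
def IsFATColoring {V : Type} (G : SimpleGraph V) {k : ℕ} (c : V → Fin k) : Prop :=
  ∃ α : ℝ, 0 ≤ α ∧ α ≤ 1 ∧ ∀ (v : V) (i : Fin k),
    (c v ≠ i → (nbrsIn G v (c ⁻¹' {i}) : ℝ) = α * deg G v) ∧
    (c v = i → (nbrsIn G v (c ⁻¹' {i}) : ℝ) = (1 - ((k : ℝ) - 1) * α) * deg G v)

/-- A partition of the vertex set (encoded as an equivalence relation) is FAT if it is the partition
into the nonempty colour classes of some FAT coloring. -/
def IsFATPartition {V : Type} (G : SimpleGraph V) (P : Setoid V) : Prop :=
  ∃ (k : ℕ) (c : V → Fin k), IsFATColoring G c ∧ P = Setoid.ker c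

/-- A FAT partition `P` is irreducible if no FAT partition is strictly finer than `P`
(`Q ≤ P` for equivalence relations means that every class of `P` is a union of classes of `Q`). -/
def IsIrreducible {V : Type} (G : SimpleGraph V) (P : Setoid V) : Prop :=
  IsFATPartition G P ∧ ∀ Q : Setoid V, IsFATPartition G Q → Q ≤ P → Q = P

/-- The orbit of a partition `P` of the vertex set under the automorphism group of `G`. -/
def orbit {V : Type} (G : SimpleGraph V) (P : Setoid V) : Set (Setoid V) :=
  {Q | ∃ φ : G ≃g G, ∀ x y : V, Q x y ↔ P (φ x) (φ y)}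

/-- The number of irreducible FAT colorings of `G`: the number of orbits, under the automorphism
group of `G`, of irreducible FAT partitions of the vertex set. -/
noncomputable def numIrreducible {V : Type} (G : SimpleGraph V) : ℕ :=
  {O : Set (Setoid V) | ∃ P, IsIrreducible G P ∧ O = orbit G P}.ncard

/-! ### The graphs -/

/-- Vertices: four hubs `inl i` and `4m` vertices `inr (i,j)` of degree two. -/
abbrev VV (m : ℕ) : Type := ZMod 4 ⊕ (ZMod 4 × Fin m)

/-- adjacency -/
def adjB (m : ℕ) : VV m → VV m → Prop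
  | .inl i, .inr e => i = e.1 ∨ i = e.1 + 1
  | .inr e, .inl i => i = e.1 ∨ i = e.1 + 1
  | .inl _, .inl _ => False
  | .inr _, .inr _ => False

/-- The subdivision of the 4-cycle with all edges of multiplicity `m`. -/
def GG (m : ℕ) : SimpleGraph (VV m) where
  Adj := adjB m
  symm := by
    constructor
    intro x y h
    cases x <;> cases y <;> simp_all [adjB]
  loopless := by
    constructor
    intro x h
    cases x <;> simp_all [adjB]

lemma adj_lr {m : ℕ} (i : ZMod 4) (e : ZMod 4 × Fin m) :
    (GG m).Adj (.inl i) (.inr e) ↔ i = e.1 ∨ i = e.1 + 1 := Iff.rfl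

lemma adj_rl {m : ℕ} (i : ZMod 4) (e : ZMod 4 × Fin m) :
    (GG m).Adj (.inr e) (.inl i) ↔ i = e.1 ∨ i = e.1 + 1 := Iff.rfl

lemma adj_ll {m : ℕ} (i i' : ZMod 4) :
    (GG m).Adj (.inl i) (.inl i') ↔ False := Iff.rfl

lemma adj_rr {m : ℕ} (e e' : ZMod 4 × Fin m) :
    (GG m).Adj (.inr e) (.inr e') ↔ False := Iff.rfl

open Classical in
lemma nbrs_inr {m : ℕ} (e : ZMod 4 × Fin m) (S : Set (VV m)) :
    nbrsIn (GG m) (.inr e) S = (if (.inl e.1 : VV m) ∈ S then 1 else 0)
      + (if (.inl (e.1 + 1) : VV m) ∈ S then 1 else 0) := by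
  unfold nbrsIn
  have h1 : (GG m).neighborSet (.inr e) = {.inl e.1, .inl (e.1 + 1)} := by
    ext x
    rcases x with i | f
    · simp [adj_rl]
    · simp [adj_rr]
  have hne : (.inl e.1 : VV m) ≠ .inl (e.1 + 1) := by
    intro h
    have : e.1 = e.1 + 1 := by simpa using h
    revert this
    generalize e.1 = a
    revert a
    decide
  rw [h1]
  by_cases ha : (.inl e.1 : VV m) ∈ S <;> by_cases hb : (.inl (e.1 + 1) : VV m) ∈ S
  · have : ({.inl e.1, .inl (e.1 + 1)} : Set (VV m)) ∩ S = {.inl e.1, .inl (e.1 + 1)} := by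
      apply inter_eq_left.mpr
      intro x hx
      rcases hx with rfl | rfl <;> assumption
    rw [this, ncard_pair hne]
    simp [ha, hb]
  · have : ({.inl e.1, .inl (e.1 + 1)} : Set (VV m)) ∩ S = {.inl e.1} := by
      ext x
      constructor
      · rintro ⟨rfl | rfl, hx⟩
        · rfl
        · exact absurd hx hb
      · rintro rfl
        exact ⟨Or.inl rfl, ha⟩
    rw [this, ncard_singleton]
    simp [ha, hb]
  · have : ({.inl e.1, .inl (e.1 + 1)} : Set (VV m)) ∩ S = {.inl (e.1 + 1)} := by
      ext x
      constructor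
      · rintro ⟨rfl | rfl, hx⟩
        · exact absurd hx ha
        · rfl
      · rintro rfl
        exact ⟨Or.inr rfl, hb⟩
    rw [this, ncard_singleton]
    simp [ha, hb]
  · have : ({.inl e.1, .inl (e.1 + 1)} : Set (VV m)) ∩ S = ∅ := by
      ext x
      constructor
      · rintro ⟨rfl | rfl, hx⟩
        · exact absurd hx ha
        · exact absurd hx hb
      · rintro ⟨⟩
    rw [this, ncard_empty]
    simp [ha, hb]

lemma nbrs_inl {m : ℕ} (i : ZMod 4) (S : Set (VV m)) :
    nbrsIn (GG m) (.inl i) S = {j : Fin m | (.inr (i, j) : VV m) ∈ S}.ncard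
      + {j : Fin m | (.inr (i - 1, j) : VV m) ∈ S}.ncard := by
  unfold nbrsIn
  have h1 : (GG m).neighborSet (.inl i) ∩ S =
      ((fun j : Fin m => (.inr (i, j) : VV m)) '' {j : Fin m | (.inr (i, j) : VV m) ∈ S}) ∪
      ((fun j : Fin m => (.inr (i - 1, j) : VV m)) ''
        {j : Fin m | (.inr (i - 1, j) : VV m) ∈ S}) := by
    ext x
    rcases x with i' | ⟨a, j⟩
    · simp [adj_ll]
    · simp only [mem_inter_iff, SimpleGraph.mem_neighborSet, adj_lr, mem_union, mem_image,
        Set.mem_ofPred_eq, Sum.inr.injEq, Prod.mk.injEq]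
      constructor
      · rintro ⟨h | h, hS⟩
        · left
          subst h
          exact ⟨j, hS, rfl, rfl⟩
        · right
          have h' : i - 1 = a := by rw [h]; ring
          subst h'
          exact ⟨j, hS, rfl, rfl⟩
      · rintro (⟨j', h, rfl, rfl⟩ | ⟨j', h, rfl, rfl⟩)
        · exact ⟨Or.inl rfl, h⟩
        · exact ⟨Or.inr (by ring), h⟩
  have hne : i ≠ i - 1 := by
    clear h1
    revert i
    decide
  rw [h1, ncard_union_eq]
  · rw [ncard_image_of_injective, ncard_image_of_injective]
    · intro a b h; simpa using h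
    · intro a b h; simpa using h
  · rw [Set.disjoint_left]
    rintro x ⟨j, -, rfl⟩ ⟨j', -, h⟩
    simp only [Sum.inr.injEq, Prod.mk.injEq] at h
    exact hne h.1.symm

lemma deg_eq {V : Type} (G : SimpleGraph V) (v : V) : deg G v = nbrsIn G v univ := by
  simp [deg, nbrsIn]

lemma deg_inr {m : ℕ} (e : ZMod 4 × Fin m) : deg (GG m) (.inr e) = 2 := by
  classical
  rw [deg_eq, nbrs_inr]
  simp

lemma deg_inl {m : ℕ} (i : ZMod 4) : deg (GG m) (.inl i) = 2 * m := by
  rw [deg_eq, nbrs_inl]
  simp [ncard_univ]
  ring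

lemma connected_GG {m : ℕ} (hm : 1 ≤ m) : (GG m).Connected := by
  have hub : ∀ i : ZMod 4, (GG m).Reachable (.inl i) (.inl (i + 1)) := by
    intro i
    have h1 : (GG m).Adj (.inl i) (.inr (i, ⟨0, hm⟩)) := by simp [adj_lr]
    have h2 : (GG m).Adj (.inr (i, ⟨0, hm⟩)) (.inl (i + 1)) := by simp [adj_rl]
    exact h1.reachable.trans h2.reachable
  have hub0 : ∀ i : ZMod 4, (GG m).Reachable (.inl 0) (.inl i) := by
    have h1 := hub 0
    have h2 := hub 1
    have h3 := hub 2
    have e1 : (0 : ZMod 4) + 1 = 1 := by decide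
    have e2 : (1 : ZMod 4) + 1 = 2 := by decide
    have e3 : (2 : ZMod 4) + 1 = 3 := by decide
    rw [e1] at h1
    rw [e2] at h2
    rw [e3] at h3
    intro i
    have hi : i = 0 ∨ i = 1 ∨ i = 2 ∨ i = 3 := by
      revert i; decide
    rcases hi with rfl | rfl | rfl | rfl
    · exact SimpleGraph.Reachable.refl _
    · exact h1
    · exact h1.trans h2
    · exact (h1.trans h2).trans h3
  have all0 : ∀ x : VV m, (GG m).Reachable (.inl 0) x := by
    intro x
    rcases x with i | e
    · exact hub0 i
    · have h : (GG m).Adj (.inl e.1) (.inr e) := by simp [adj_lr]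
      exact (hub0 e.1).trans h.reachable
  have : Nonempty (VV m) := ⟨.inl 0⟩
  exact ⟨fun x y => (all0 x).symm.trans (all0 y)⟩

/-! ### Classification of FAT partitions -/

/-- The bipartition. -/
def bip (m : ℕ) : Setoid (VV m) := Setoid.ker (fun x : VV m => x.isLeft)

/-- Number of vertices of bundle `i` in the class of the hub `0`. -/
noncomputable def pp {m : ℕ} (P : Setoid (VV m)) (i : ZMod 4) : ℕ :=
  {j : Fin m | P (.inr (i, j)) (.inl 0)}.ncard

/-- Balanced partitions into two classes. -/
structure Bal {m : ℕ} (P : Setoid (VV m)) : Prop where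
  h01 : ¬ P (.inl 0) (.inl 1)
  h02 : P (.inl 0) (.inl 2)
  h13 : P (.inl 1) (.inl 3)
  two : ∀ x, P x (.inl 0) ∨ P x (.inl 1)
  bal : ∀ i, pp P i + pp P (i - 1) = m

lemma zmod4 (i : ZMod 4) : i = 0 ∨ i = 1 ∨ i = 2 ∨ i = 3 := by
  revert i; decide

lemma const_of_connected {V : Type} {G : SimpleGraph V} (hG : G.Connected) {k : ℕ}
    (c : V → Fin k) (h : ∀ v w, G.Adj v w → c v = c w) : Setoid.ker c = ⊤ := by
  ext x y
  simp only [Setoid.ker_def, Setoid.top_def, Pi.top_apply, Prop.top_eq_true, iff_true]
  obtain ⟨w⟩ := hG.preconnected x y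
  induction w with
  | nil => rfl
  | cons hadj _ ih => exact (h _ _ hadj).trans ih

lemma fin3_third : ∀ a b x y : Fin 3, a ≠ b → x ≠ a → x ≠ b → y ≠ a → y ≠ b → x = y := by
  decide

lemma fin3_four : ∀ a b x y : Fin 3, a ≠ b → a ≠ x → a ≠ y → b ≠ x → b ≠ y → x = y := by
  decide

lemma bip_iff {m : ℕ} (x y : VV m) : (bip m) x y ↔ x.isLeft = y.isLeft := Iff.rfl

lemma fat_cases {m : ℕ} (hm : 1 ≤ m) {P : Setoid (VV m)} (hP : IsFATPartition (GG m) P) :
    P = ⊤ ∨ P = bip m ∨ Bal P := by
  classical
  obtain ⟨k, c, ⟨α, h0, h1, H⟩, rfl⟩ := hP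
  have j0 : Fin m := ⟨0, hm⟩
  have hmR : (1 : ℝ) ≤ m := by exact_mod_cast hm
  rcases h0.eq_or_lt with h0 | h0
  · -- α = 0
    left
    apply const_of_connected (connected_GG hm)
    intro v w hvw
    by_contra hne
    have := (H v (c w)).1 hne
    rw [← h0, zero_mul] at this
    have h2 : nbrsIn (GG m) v (c ⁻¹' {c w}) = 0 := by exact_mod_cast this
    unfold nbrsIn at h2
    rw [ncard_eq_zero (toFinite _)] at h2
    have : w ∈ (GG m).neighborSet v ∩ c ⁻¹' {c w} := ⟨hvw, rfl⟩
    rw [h2] at this
    exact this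
  · by_cases hk : ∀ t, t = c (.inr (0, j0))
    · left
      ext x y
      simp only [Setoid.ker_def, Setoid.top_def, Pi.top_apply, Prop.top_eq_true, iff_true]
      rw [hk (c x), hk (c y)]
    · push Not at hk
      obtain ⟨t0, ht0⟩ := hk
      -- exists a color different from any given one
      have hex : ∀ s : Fin k, ∃ t, t ≠ s := by
        intro s
        by_cases hs : s = t0
        · exact ⟨_, by rw [hs]; exact ht0.symm⟩
        · exact ⟨t0, fun h => hs h.symm⟩
      have hval : α = 1 ∨ α = 1 / 2 := by
        have := (H (.inr (0, j0)) t0).1 ht0.symm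
        rw [deg_inr, nbrs_inr] at this
        push_cast at this
        split_ifs at this
        · left; linarith
        · right; linarith
        · right; linarith
        · exfalso; linarith
      rcases hval with hα | hα
      · -- α = 1
        right; left
        have K : ∀ v w, (GG m).Adj v w → ∀ t, t ≠ c v → c w = t := by
          intro v w hvw t ht
          have := (H v t).1 ht.symm
          rw [hα, one_mul] at this
          have h2 : nbrsIn (GG m) v (c ⁻¹' {t}) = deg (GG m) v := by exact_mod_cast this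
          unfold nbrsIn deg at h2
          have h3 : (GG m).neighborSet v ∩ c ⁻¹' {t} = (GG m).neighborSet v :=
            eq_of_subset_of_ncard_le inter_subset_left (le_of_eq h2.symm) (toFinite _)
          have : w ∈ (GG m).neighborSet v ∩ c ⁻¹' {t} := by
            rw [h3]; exact hvw
          exact this.2
        obtain ⟨T, hT⟩ := hex (c (.inl 0))
        have step : ∀ i : ZMod 4, c (.inl i) = c (.inl 0) → c (.inl (i + 1)) = c (.inl 0) := by
          intro i hi
          have a1 : c (.inr (i, j0)) = T :=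
            K (.inl i) (.inr (i, j0)) (by simp [adj_lr]) T (by rw [hi]; exact hT)
          exact K (.inr (i, j0)) (.inl (i + 1)) (by simp [adj_rl]) _ (by rw [a1]; exact hT.symm)
        have hl : ∀ i : ZMod 4, c (.inl i) = c (.inl 0) := by
          have s1 := step 0 rfl
          have e1 : (0 : ZMod 4) + 1 = 1 := by decide
          rw [e1] at s1
          have s2 := step 1 s1
          have e2 : (1 : ZMod 4) + 1 = 2 := by decide
          rw [e2] at s2
          have s3 := step 2 s2
          have e3 : (2 : ZMod 4) + 1 = 3 := by decide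
          rw [e3] at s3
          intro i
          rcases zmod4 i with rfl | rfl | rfl | rfl
          · rfl
          · exact s1
          · exact s2
          · exact s3
        have hr : ∀ e : ZMod 4 × Fin m, c (.inr e) = T := by
          intro e
          exact K (.inl e.1) (.inr e) (by simp [adj_lr]) T (by rw [hl]; exact hT)
        ext x y
        rw [bip_iff, Setoid.ker_def]
        rcases x with i | e <;> rcases y with i' | e'
        · simp [hl i, hl i']
        · simp [hl i, hr e', hT.symm]
        · simp [hl i', hr e, hT]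
        · simp [hr e, hr e']
      · -- α = 1/2
        right; right
        have hk3 : k ≤ 3 := by
          have := (H (.inr (0, j0)) (c (.inr (0, j0)))).2 rfl
          rw [deg_inr, hα] at this
          have h3 : (0 : ℝ) ≤ nbrsIn (GG m) (.inr (0, j0)) (c ⁻¹' {c (.inr (0, j0))}) :=
            Nat.cast_nonneg _
          have : (k : ℝ) ≤ 3 := by
            push_cast at this
            linarith
          exact_mod_cast this
        have hk2 : 2 ≤ k := by
          by_contra hlt
          have : k ≤ 1 := by omega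
          have hs : Subsingleton (Fin k) := by
            interval_cases k
            · infer_instance
            · infer_instance
          exact ht0 (Subsingleton.elim _ _)
        have hub : ∀ i t, t ≠ c (.inl i) →
            {j : Fin m | c (.inr (i, j)) = t}.ncard
              + {j : Fin m | c (.inr (i - 1, j)) = t}.ncard = m := by
          intro i t ht
          have := (H (.inl i) t).1 ht.symm
          rw [deg_inl, hα, nbrs_inl] at this
          push_cast at this
          have h3 : (({j : Fin m | c (.inr (i, j)) = t}.ncard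
              + {j : Fin m | c (.inr (i - 1, j)) = t}.ncard : ℕ) : ℝ) = m := by
            push_cast
            simp only [mem_preimage, mem_singleton_iff] at this
            linarith
          exact_mod_cast h3
        have spoke : ∀ e : ZMod 4 × Fin m, ∀ t, t ≠ c (.inr e) →
            ((if c (.inl e.1) = t then 1 else 0) + (if c (.inl (e.1 + 1)) = t then 1 else 0) : ℕ)
              = 1 := by
          intro e t ht
          have := (H (.inr e) t).1 ht.symm
          rw [deg_inr, hα, nbrs_inr] at this
          simp only [mem_preimage, mem_singleton_iff] at this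
          have h3 : (((if c (.inl e.1) = t then 1 else 0)
              + (if c (.inl (e.1 + 1)) = t then 1 else 0) : ℕ) : ℝ) = 1 := by
            rw [this]; norm_num
          exact_mod_cast h3
        have spoke' : ∀ e : ZMod 4 × Fin m,
            (((if c (.inl e.1) = c (.inr e) then 1 else 0)
              + (if c (.inl (e.1 + 1)) = c (.inr e) then 1 else 0) : ℕ) : ℝ) = 3 - k := by
          intro e
          have := (H (.inr e) (c (.inr e))).2 rfl
          rw [deg_inr, hα, nbrs_inr] at this
          simp only [mem_preimage, mem_singleton_iff] at this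
          rw [this]
          push_cast
          ring
        obtain rfl | rfl : k = 2 ∨ k = 3 := by omega
        · -- k = 2
          have alt : ∀ i : ZMod 4, c (.inl i) ≠ c (.inl (i + 1)) := by
            intro i heq
            have h3 := spoke' (i, j0)
            simp only [heq] at h3
            split_ifs at h3 <;> norm_num at h3
          have f2 : ∀ a b x : Fin 2, a ≠ b → b ≠ x → a = x := by decide
          have f2' : ∀ a b x : Fin 2, a ≠ b → x = a ∨ x = b := by decide
          have a0 := alt 0
          have a1 := alt 1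
          have a2 := alt 2
          have e1 : (0 : ZMod 4) + 1 = 1 := by decide
          have e2 : (1 : ZMod 4) + 1 = 2 := by decide
          have e3 : (2 : ZMod 4) + 1 = 3 := by decide
          rw [e1] at a0
          rw [e2] at a1
          rw [e3] at a2
          have h02 : c (.inl 0) = c (.inl 2) := f2 _ _ _ a0 a1
          have h13 : c (.inl 1) = c (.inl 3) := f2 _ _ _ a1 a2
          refine ⟨?_, ?_, ?_, ?_, ?_⟩
          · simpa [Setoid.ker_def] using a0
          · simpa [Setoid.ker_def] using h02
          · simpa [Setoid.ker_def] using h13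
          · intro x
            simp only [Setoid.ker_def]
            exact f2' _ _ _ a0
          · intro i
            by_cases hi : c (.inl 0) = c (.inl i)
            · have := (H (.inl i) (c (.inl 0))).2 hi.symm
              rw [deg_inl, hα, nbrs_inl] at this
              simp only [mem_preimage, mem_singleton_iff] at this
              have h3 : ((pp (Setoid.ker c) i + pp (Setoid.ker c) (i - 1) : ℕ) : ℝ) = m := by
                unfold pp
                simp only [Setoid.ker_def]
                rw [this]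
                push_cast
                ring
              exact_mod_cast h3
            · exact hub i (c (.inl 0)) hi
        · -- k = 3
          exfalso
          have hk0 : (3 : ℝ) - ((3 : ℕ) : ℝ) = 0 := by norm_num
          have own : ∀ e : ZMod 4 × Fin m, c (.inr e) ≠ c (.inl e.1)
              ∧ c (.inr e) ≠ c (.inl (e.1 + 1)) := by
            intro e
            have h3 := spoke' e
            rw [hk0] at h3
            constructor
            · intro heq
              rw [if_pos heq.symm] at h3
              split_ifs at h3 <;> norm_num at h3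
            · intro heq
              rw [if_pos heq.symm] at h3
              split_ifs at h3 <;> norm_num at h3
          have alt : ∀ i : ZMod 4, c (.inl i) ≠ c (.inl (i + 1)) := by
            intro i heq
            have h3 := spoke (i, j0) (c (.inl i)) (own (i, j0)).1.symm
            simp [heq] at h3
          have alt2 : ∀ i : ZMod 4, c (.inl (i - 1)) ≠ c (.inl (i + 1)) := by
            intro i heq
            have ei : i - 1 + 1 = i := by ring
            have b1 : ∀ j, c (.inr (i, j)) = c (.inr (i, j0)) := by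
              intro j
              exact fin3_third _ _ _ _ (alt i) (own (i, j)).1 (own (i, j)).2 (own (i, j0)).1
                (own (i, j0)).2
            have b2 : ∀ j, c (.inr (i - 1, j)) = c (.inr (i, j0)) := by
              intro j
              have o1 := (own (i - 1, j)).1
              have o2 := (own (i - 1, j)).2
              simp only at o1 o2
              rw [heq] at o1
              rw [ei] at o2
              exact fin3_third _ _ _ _ (alt i) o2 o1 (own (i, j0)).1
                (own (i, j0)).2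
            have h3 := hub i (c (.inr (i, j0))) (own (i, j0)).1
            simp only [b1, b2] at h3
            simp [ncard_univ] at h3
            omega
          have a0 := alt 0
          have a1 := alt 1
          have a2 := alt 2
          have a3 := alt 3
          have b1 := alt2 1
          have b2 := alt2 2
          have e1 : (0 : ZMod 4) + 1 = 1 := by decide
          have e2 : (1 : ZMod 4) + 1 = 2 := by decide
          have e3 : (2 : ZMod 4) + 1 = 3 := by decide
          have e4 : (3 : ZMod 4) + 1 = 0 := by decide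
          have e5 : (1 : ZMod 4) - 1 = 0 := by decide
          have e6 : (2 : ZMod 4) - 1 = 1 := by decide
          rw [e1] at a0
          rw [e2] at a1
          rw [e3] at a2
          rw [e4] at a3
          rw [e5, e2] at b1
          rw [e6, e3] at b2
          exact a2 (fin3_four _ _ _ _ a0 b1 a3.symm a1 b2)


/-! ### Balanced partitions and the bipartition are FAT -/

lemma Bal.iff {m : ℕ} {P : Setoid (VV m)} (h : Bal P) (x y : VV m) :
    P x y ↔ (P x (.inl 0) ↔ P y (.inl 0)) := by
  constructor
  · intro hxy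
    exact ⟨fun hx => P.trans (P.symm hxy) hx, fun hy => P.trans hxy hy⟩
  · intro hiff
    by_cases hx : P x (.inl 0)
    · exact P.trans hx (P.symm (hiff.1 hx))
    · have hy : ¬ P y (.inl 0) := fun hy => hx (hiff.2 hy)
      have hx1 := (h.two x).resolve_left hx
      have hy1 := (h.two y).resolve_left hy
      exact P.trans hx1 (P.symm hy1)

lemma Bal.not1 {m : ℕ} {P : Setoid (VV m)} (h : Bal P) : ¬ P (.inl 1) (.inl 0) :=
  fun h' => h.h01 (P.symm h')

lemma Bal.alt {m : ℕ} {P : Setoid (VV m)} (h : Bal P) (i : ZMod 4) :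
    P (.inl (i + 1)) (.inl 0) ↔ ¬ P (.inl i) (.inl 0) := by
  have e1 : (0 : ZMod 4) + 1 = 1 := by decide
  have e2 : (1 : ZMod 4) + 1 = 2 := by decide
  have e3 : (2 : ZMod 4) + 1 = 3 := by decide
  have e4 : (3 : ZMod 4) + 1 = 0 := by decide
  have p0 : P (.inl 0) (.inl 0) := P.refl _
  have p1 := h.not1
  have p2 : P (.inl 2) (.inl 0) := P.symm h.h02
  have p3 : ¬ P (.inl 3) (.inl 0) := fun h' => p1 (P.trans h.h13 h')
  rcases zmod4 i with rfl | rfl | rfl | rfl
  · rw [e1]; simp [p1]
  · rw [e2]; simp [p1, p2]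
  · rw [e3]; simp [p2, p3]
  · rw [e4]; simp [p3]

lemma ncard_compl_fin {m : ℕ} (p : Fin m → Prop) :
    {j | ¬ p j}.ncard + {j | p j}.ncard = m := by
  have h := Set.ncard_add_ncard_compl {j | p j}
  have h2 : ({j | p j} : Set (Fin m))ᶜ = {j | ¬ p j} := rfl
  rw [h2, Nat.card_eq_fintype_card, Fintype.card_fin] at h
  omega

lemma Bal.isFAT {m : ℕ} {P : Setoid (VV m)} (h : Bal P) : IsFATPartition (GG m) P := by
  classical
  let c : VV m → Fin 2 := fun x => if P x (.inl 0) then 0 else 1
  have hc0 : ∀ x, c x = 0 ↔ P x (.inl 0) := by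
    intro x
    simp only [c]
    split_ifs with hx <;> simp [hx]
  have hc1 : ∀ x, c x = 1 ↔ ¬ P x (.inl 0) := by
    intro x
    simp only [c]
    split_ifs with hx <;> simp [hx]
  refine ⟨2, c, ⟨1 / 2, by norm_num, by norm_num, ?_⟩, ?_⟩
  · -- every vertex has half of its neighbours in each class
    have key : ∀ (v : VV m) (i : Fin 2),
        (nbrsIn (GG m) v (c ⁻¹' {i}) : ℝ) = (1 / 2) * deg (GG m) v := by
      intro v i
      rcases v with a | e
      · have hb := h.bal a
        unfold pp at hb
        have q1 := ncard_compl_fin (fun j : Fin m => P (.inr (a, j)) (.inl 0))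
        have q2 := ncard_compl_fin (fun j : Fin m => P (.inr (a - 1, j)) (.inl 0))
        rw [deg_inl, nbrs_inl]
        simp only [mem_preimage, mem_singleton_iff]
        have hi : i = 0 ∨ i = 1 := by revert i; decide
        rcases hi with rfl | rfl
        · simp only [hc0]
          push_cast
          have : (({j : Fin m | P (.inr (a, j)) (.inl 0)}.ncard
            + {j : Fin m | P (.inr (a - 1, j)) (.inl 0)}.ncard : ℕ) : ℝ) = m := by
            exact_mod_cast hb
          push_cast at this
          linarith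
        · simp only [hc1]
          have h3 : {j : Fin m | ¬ P (.inr (a, j)) (.inl 0)}.ncard
            + {j : Fin m | ¬ P (.inr (a - 1, j)) (.inl 0)}.ncard = m := by omega
          have : (({j : Fin m | ¬ P (.inr (a, j)) (.inl 0)}.ncard
            + {j : Fin m | ¬ P (.inr (a - 1, j)) (.inl 0)}.ncard : ℕ) : ℝ) = m := by
            exact_mod_cast h3
          push_cast at this ⊢
          linarith
      · rw [deg_inr, nbrs_inr]
        simp only [mem_preimage, mem_singleton_iff]
        have ha := h.alt e.1
        have hi : i = 0 ∨ i = 1 := by revert i; decide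
        rcases hi with rfl | rfl
        · simp only [hc0]
          by_cases hx : P (.inl e.1) (.inl 0)
          · simp [ha, hx]
          · simp [ha, hx]
        · simp only [hc1]
          by_cases hx : P (.inl e.1) (.inl 0)
          · simp [ha, hx]
          · simp [ha, hx]
    intro v i
    refine ⟨fun _ => key v i, fun _ => ?_⟩
    rw [key v i]
    norm_num
  · ext x y
    rw [Setoid.ker_def, h.iff]
    simp only [c]
    by_cases hx : P x (.inl 0) <;> by_cases hy : P y (.inl 0) <;> simp [hx, hy]

lemma bip_isFAT (m : ℕ) : IsFATPartition (GG m) (bip m) := by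
  classical
  let c : VV m → Fin 2 := fun x => if x.isLeft then 0 else 1
  refine ⟨2, c, ⟨1, by norm_num, by norm_num, ?_⟩, ?_⟩
  · have key : ∀ v : VV m, ∀ i : Fin 2, (c v ≠ i → (GG m).neighborSet v ∩ c ⁻¹' {i} =
        (GG m).neighborSet v) ∧ (c v = i → (GG m).neighborSet v ∩ c ⁻¹' {i} = ∅) := by
      intro v i
      constructor
      · intro hi
        apply inter_eq_left.mpr
        intro w hw
        rw [SimpleGraph.mem_neighborSet] at hw
        simp only [mem_preimage, mem_singleton_iff]
        have f2 : ∀ a b x : Fin 2, a ≠ x → a ≠ b → b = x := by decide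
        apply f2 (c v) (c w) i hi
        rcases v with a | e <;> rcases w with a' | e'
        · exact absurd hw (by simp [adj_ll])
        · simp [c]
        · simp [c]
        · exact absurd hw (by simp [adj_rr])
      · intro hi
        ext w
        simp only [mem_inter_iff, SimpleGraph.mem_neighborSet, mem_preimage, mem_singleton_iff,
          mem_empty_iff_false, iff_false, not_and]
        intro hw
        rw [← hi]
        rcases v with a | e <;> rcases w with a' | e'
        · exact absurd hw (by simp [adj_ll])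
        · simp [c]
        · simp [c]
        · exact absurd hw (by simp [adj_rr])
    intro v i
    unfold nbrsIn deg
    refine ⟨fun hi => ?_, fun hi => ?_⟩
    · rw [(key v i).1 hi]; ring
    · rw [(key v i).2 hi]
      norm_num
  · ext x y
    rw [Setoid.ker_def, bip_iff]
    simp only [c]
    cases x <;> cases y <;> simp

/-! ### The irreducible FAT partitions -/

lemma Bal.ne_top {m : ℕ} {P : Setoid (VV m)} (h : Bal P) : P ≠ ⊤ := by
  rintro rfl
  exact h.h01 trivial

lemma bip_ne_top {m : ℕ} (hm : 1 ≤ m) : bip m ≠ ⊤ := by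
  intro h
  have h1 : (bip m) (.inl 0) (.inr (0, ⟨0, hm⟩)) := by rw [h]; trivial
  rw [bip_iff] at h1
  simp at h1

lemma Bal.exists_mono {m : ℕ} (hm : 1 ≤ m) {P : Setoid (VV m)} (h : Bal P) :
    ∃ e : ZMod 4 × Fin m, (GG m).Adj (.inl 0) (.inr e) ∧ P (.inl 0) (.inr e) := by
  have hb := h.bal 0
  by_cases h0 : pp P 0 = 0
  · have h1 : pp P (0 - 1) ≠ 0 := by omega
    unfold pp at h1
    rw [← Nat.pos_iff_ne_zero, ncard_pos] at h1
    obtain ⟨j, hj⟩ := h1
    exact ⟨(0 - 1, j), by simp [adj_lr], P.symm hj⟩
  · unfold pp at h0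
    rw [← ne_eq, ← Nat.pos_iff_ne_zero, ncard_pos] at h0
    obtain ⟨j, hj⟩ := h0
    exact ⟨(0, j), by simp [adj_lr], P.symm hj⟩

lemma Bal.not_le_bip {m : ℕ} (hm : 1 ≤ m) {P : Setoid (VV m)} (h : Bal P) : ¬ P ≤ bip m := by
  intro hle
  obtain ⟨e, -, he⟩ := h.exists_mono hm
  have := hle he
  rw [bip_iff] at this
  simp at this

lemma Bal.not_bip_le {m : ℕ} {P : Setoid (VV m)} (h : Bal P) : ¬ bip m ≤ P := by
  intro hle
  apply h.h01
  apply hle
  rw [bip_iff]
  rfl

lemma Bal.eq_of_le {m : ℕ} {P Q : Setoid (VV m)} (hP : Bal P) (hQ : Bal Q) (hle : Q ≤ P) :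
    Q = P := by
  have key : ∀ x, Q x (.inl 0) ↔ P x (.inl 0) := by
    intro x
    constructor
    · intro h; exact hle h
    · intro h
      rcases hQ.two x with h2 | h2
      · exact h2
      · exfalso
        have : P x (.inl 1) := hle h2
        exact hP.h01 (P.trans (P.symm h) this)
  ext x y
  rw [hQ.iff, hP.iff, key, key]

lemma irreducible_iff {m : ℕ} (hm : 1 ≤ m) (P : Setoid (VV m)) :
    IsIrreducible (GG m) P ↔ P = bip m ∨ Bal P := by
  constructor
  · rintro ⟨hF, hmax⟩
    rcases fat_cases hm hF with h | h | h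
    · exfalso
      apply bip_ne_top hm
      rw [hmax (bip m) (bip_isFAT m) (by rw [h]; exact le_top), h]
    · exact Or.inl h
    · exact Or.inr h
  · rintro (rfl | h)
    · refine ⟨bip_isFAT m, fun Q hQ hle => ?_⟩
      rcases fat_cases hm hQ with h | h | h
      · exfalso
        rw [h, top_le_iff] at hle
        exact bip_ne_top hm hle
      · exact h
      · exact absurd hle (h.not_le_bip hm)
    · refine ⟨h.isFAT, fun Q hQ hle => ?_⟩
      rcases fat_cases hm hQ with h' | h' | h'
      · exfalso
        rw [h', top_le_iff] at hle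
        exact h.ne_top hle
      · exfalso
        rw [h'] at hle
        exact h.not_bip_le hle
      · exact h.eq_of_le h' hle

/-! ### Orbits -/

lemma mem_orbit_self {V : Type} (G : SimpleGraph V) (P : Setoid V) : P ∈ orbit G P :=
  ⟨SimpleGraph.Iso.refl, fun _ _ => Iff.rfl⟩

lemma orbit_eq {V : Type} {G : SimpleGraph V} {P Q : Setoid V} (h : Q ∈ orbit G P) :
    orbit G Q = orbit G P := by
  obtain ⟨φ, hφ⟩ := h
  ext R
  constructor
  · rintro ⟨ψ, hψ⟩
    refine ⟨φ.comp ψ, fun x y => ?_⟩
    rw [hψ, hφ]
    rfl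
  · rintro ⟨ψ, hψ⟩
    refine ⟨φ.symm.comp ψ, fun x y => ?_⟩
    rw [hψ, hφ]
    have : ∀ z, φ ((φ.symm.comp ψ) z) = ψ z := fun z => φ.apply_symm_apply (ψ z)
    rw [this, this]

/-- the side function of the standard balanced partition -/
def side {m : ℕ} (p : ℕ) : VV m → Prop
  | .inl i => i = 0 ∨ i = 2
  | .inr e => ((e.1 = 0 ∨ e.1 = 2) ∧ e.2.1 < p) ∨ ((e.1 = 1 ∨ e.1 = 3) ∧ p ≤ e.2.1)

/-- the standard balanced partition with parameter `p` -/
def std (m p : ℕ) : Setoid (VV m) := Setoid.ker (side (m := m) p)

lemma std_iff {m p : ℕ} (x y : VV m) : (std m p) x y ↔ (side p x ↔ side p y) := by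
  unfold std
  rw [Setoid.ker_def]
  exact propext_iff

lemma std_zero {m p : ℕ} (x : VV m) : (std m p) x (.inl 0) ↔ side p x := by
  rw [std_iff]
  have : side p (.inl 0 : VV m) := Or.inl rfl
  simp [this]

lemma ncard_lt {m p : ℕ} (hp : p ≤ m) : {j : Fin m | j.1 < p}.ncard = p := by
  classical
  rw [Set.ncard_eq_toFinset_card']
  simp
  rw [Fin.card_filter_val_lt]
  omega

lemma ncard_ge {m p : ℕ} (hp : p ≤ m) : {j : Fin m | p ≤ j.1}.ncard = m - p := by
  have h := ncard_compl_fin (fun j : Fin m => j.1 < p)
  simp only [not_lt] at h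
  rw [ncard_lt hp] at h
  omega

lemma pp_std {m p : ℕ} (hp : p ≤ m) (i : ZMod 4) :
    pp (std m p) i = if i = 0 ∨ i = 2 then p else m - p := by
  unfold pp
  simp only [std_zero, side]
  rcases zmod4 i with rfl | rfl | rfl | rfl
  · have h1 : ¬ ((0 : ZMod 4) = 1 ∨ (0 : ZMod 4) = 3) := by decide
    simp only [h1, true_or, true_and, false_and, or_false, if_true]
    exact ncard_lt hp
  · have h1 : ¬ ((1 : ZMod 4) = 0 ∨ (1 : ZMod 4) = 2) := by decide
    simp only [h1, true_or, true_and, false_and, false_or, if_false]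
    exact ncard_ge hp
  · have h1 : ¬ ((2 : ZMod 4) = 1 ∨ (2 : ZMod 4) = 3) := by decide
    simp only [h1, or_true, true_and, false_and, or_false, if_true]
    exact ncard_lt hp
  · have h1 : ¬ ((3 : ZMod 4) = 0 ∨ (3 : ZMod 4) = 2) := by decide
    simp only [h1, or_true, true_and, false_and, false_or, if_false]
    exact ncard_ge hp

lemma std_bal {m p : ℕ} (hp : p ≤ m) : Bal (std m p) := by
  refine ⟨?_, ?_, ?_, ?_, ?_⟩
  · rw [std_iff]
    simp only [side]
    decide
  · rw [std_iff]
    simp only [side]
    decide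
  · rw [std_iff]
    simp only [side]
    decide
  · intro x
    rw [std_zero, std_iff]
    have h1 : ¬ side p (.inl 1 : VV m) := by
      simp only [side]
      decide
    by_cases hx : side p x
    · exact Or.inl hx
    · right
      simp [hx, h1]
  · intro i
    rw [pp_std hp, pp_std hp]
    rcases zmod4 i with rfl | rfl | rfl | rfl
    · have h1 : ¬ ((0 : ZMod 4) - 1 = 0 ∨ (0 : ZMod 4) - 1 = 2) := by decide
      simp only [h1, true_or, if_true, if_false]
      omega
    · have h1 : ¬ ((1 : ZMod 4) = 0 ∨ (1 : ZMod 4) = 2) := by decide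
      have h2 : ((1 : ZMod 4) - 1 = 0 ∨ (1 : ZMod 4) - 1 = 2) := by decide
      simp only [h1, h2, if_true, if_false]
      omega
    · have h1 : ¬ ((2 : ZMod 4) - 1 = 0 ∨ (2 : ZMod 4) - 1 = 2) := by decide
      simp only [h1, or_true, if_true, if_false]
      omega
    · have h1 : ¬ ((3 : ZMod 4) = 0 ∨ (3 : ZMod 4) = 2) := by decide
      have h2 : ((3 : ZMod 4) - 1 = 0 ∨ (3 : ZMod 4) - 1 = 2) := by decide
      simp only [h1, h2, if_true, if_false]
      omega

lemma exists_perm {m : ℕ} (A B : Fin m → Prop) (h : {j | A j}.ncard = {j | B j}.ncard) :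
    ∃ σ : Equiv.Perm (Fin m), ∀ j, A j ↔ B (σ j) := by
  classical
  have hA : Fintype.card {j // A j} = {j | A j}.ncard := by
    rw [Set.ncard_eq_toFinset_card', Set.toFinset_card]
    rfl
  have hB : Fintype.card {j // B j} = {j | B j}.ncard := by
    rw [Set.ncard_eq_toFinset_card', Set.toFinset_card]
    rfl
  have h1 : Fintype.card {j // A j} = Fintype.card {j // B j} := by rw [hA, hB, h]
  have h2 : Fintype.card {j // ¬ A j} = Fintype.card {j // ¬ B j} := by
    rw [Fintype.card_subtype_compl, Fintype.card_subtype_compl, h1]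
  let e1 := Fintype.equivOfCardEq h1
  let e2 := Fintype.equivOfCardEq h2
  refine ⟨e1.subtypeCongr e2, fun j => ?_⟩
  by_cases hj : A j
  · have : (e1.subtypeCongr e2) j = e1 ⟨j, hj⟩ := by
      simp [Equiv.subtypeCongr, Equiv.sumCompl_symm_apply_of_pos hj]
    rw [this]
    exact ⟨fun _ => (e1 ⟨j, hj⟩).2, fun _ => hj⟩
  · have : (e1.subtypeCongr e2) j = e2 ⟨j, hj⟩ := by
      simp [Equiv.subtypeCongr, Equiv.sumCompl_symm_apply_of_neg hj]
    rw [this]
    exact ⟨fun h' => absurd h' hj, fun h' => absurd h' (e2 ⟨j, hj⟩).2⟩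

lemma Bal.inl_iff {m : ℕ} {P : Setoid (VV m)} (h : Bal P) (i : ZMod 4) :
    P (.inl i) (.inl 0) ↔ (i = 0 ∨ i = 2) := by
  have p0 : P (.inl 0) (.inl 0) := P.refl _
  have p1 := h.not1
  have p2 : P (.inl 2) (.inl 0) := P.symm h.h02
  have p3 : ¬ P (.inl 3) (.inl 0) := fun h' => p1 (P.trans h.h13 h')
  rcases zmod4 i with rfl | rfl | rfl | rfl
  · simp
  · simp only [p1, false_iff]
    decide
  · simp [p2]
  · simp only [p3, false_iff]
    decide

/-- the automorphism permuting each bundle -/
def bundleIso (m : ℕ) (σ : ZMod 4 → Equiv.Perm (Fin m)) : GG m ≃g GG m where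
  toEquiv := Equiv.sumCongr (Equiv.refl _) (Equiv.prodShear (Equiv.refl _) σ)
  map_rel_iff' := by
    intro x y
    rcases x with i | e <;> rcases y with i' | e'
    · exact Iff.rfl
    · exact Iff.rfl
    · exact Iff.rfl
    · exact Iff.rfl

lemma bundleIso_inl {m : ℕ} (σ : ZMod 4 → Equiv.Perm (Fin m)) (i : ZMod 4) :
    bundleIso m σ (.inl i) = .inl i := rfl

lemma bundleIso_inr {m : ℕ} (σ : ZMod 4 → Equiv.Perm (Fin m)) (e : ZMod 4 × Fin m) :
    bundleIso m σ (.inr e) = .inr (e.1, σ e.1 e.2) := rfl

lemma orbit_of_pp {m : ℕ} {P Q : Setoid (VV m)} (hP : Bal P) (hQ : Bal Q)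
    (h : ∀ i, pp P i = pp Q i) : P ∈ orbit (GG m) Q := by
  have h1 : ∀ i : ZMod 4, ∃ σ : Equiv.Perm (Fin m), ∀ j,
      P (.inr (i, j)) (.inl 0) ↔ Q (.inr (i, σ j)) (.inl 0) :=
    fun i => exists_perm _ _ (h i)
  choose σ hσ using h1
  refine ⟨bundleIso m σ, fun x y => ?_⟩
  have key : ∀ x, P x (.inl 0) ↔ Q (bundleIso m σ x) (.inl 0) := by
    intro x
    rcases x with i | e
    · rw [bundleIso_inl, hP.inl_iff, hQ.inl_iff]
    · rw [bundleIso_inr]
      exact hσ e.1 e.2
  rw [hP.iff, hQ.iff, key, key]

/-- the reflection fixing the hubs `0` and `2` -/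
def refl (m : ℕ) : GG m ≃g GG m where
  toFun := fun x => match x with
    | .inl i => .inl (-i)
    | .inr e => .inr (-e.1 - 1, e.2)
  invFun := fun x => match x with
    | .inl i => .inl (-i)
    | .inr e => .inr (-e.1 - 1, e.2)
  left_inv := by
    intro x
    rcases x with i | ⟨a, j⟩
    · simp
    · simp
  right_inv := by
    intro x
    rcases x with i | ⟨a, j⟩
    · simp
    · simp
  map_rel_iff' := by
    have hz : ∀ i a : ZMod 4, (-i = -a - 1 ∨ -i = -a - 1 + 1) ↔ (i = a ∨ i = a + 1) := by decide
    intro x y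
    rcases x with i | e <;> rcases y with i' | e'
    · exact Iff.rfl
    · exact hz _ _
    · exact hz _ _
    · exact Iff.rfl

lemma refl_inl {m : ℕ} (i : ZMod 4) : refl m (.inl i) = .inl (-i) := rfl

lemma refl_inr {m : ℕ} (e : ZMod 4 × Fin m) : refl m (.inr e) = .inr (-e.1 - 1, e.2) := rfl

lemma comap_refl_iff {m : ℕ} (P : Setoid (VV m)) (x y : VV m) :
    (P.comap (refl m)) x y ↔ P (refl m x) (refl m y) := Iff.rfl

lemma pp_refl {m : ℕ} (P : Setoid (VV m)) (i : ZMod 4) :
    pp (P.comap (refl m)) i = pp P (-i - 1) := by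
  unfold pp
  simp only [comap_refl_iff, refl_inl, refl_inr, neg_zero]

lemma bal_refl {m : ℕ} {P : Setoid (VV m)} (h : Bal P) : Bal (P.comap (refl m)) := by
  have e1 : -(1 : ZMod 4) = 3 := by decide
  have e2 : -(2 : ZMod 4) = 2 := by decide
  have e3 : -(3 : ZMod 4) = 1 := by decide
  refine ⟨?_, ?_, ?_, ?_, ?_⟩
  · rw [comap_refl_iff, refl_inl, refl_inl, neg_zero, e1]
    intro h'
    exact h.h01 (P.trans h' (P.symm h.h13))
  · rw [comap_refl_iff, refl_inl, refl_inl, neg_zero, e2]
    exact h.h02
  · rw [comap_refl_iff, refl_inl, refl_inl, e1, e3]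
    exact P.symm h.h13
  · intro x
    rw [comap_refl_iff, comap_refl_iff, refl_inl, refl_inl, neg_zero, e1]
    rcases h.two (refl m x) with h1 | h1
    · exact Or.inl h1
    · exact Or.inr (P.trans h1 h.h13)
  · intro i
    rw [pp_refl, pp_refl]
    have := h.bal (-(i - 1) - 1)
    have e : -(i - 1) - 1 - 1 = -i - 1 := by ring
    rw [e] at this
    omega

lemma Bal.pp_std_eq {m : ℕ} {P : Setoid (VV m)} (h : Bal P) (i : ZMod 4) :
    pp P i = pp (std m (pp P 0)) i := by
  have b1 := h.bal 1
  have b2 := h.bal 2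
  have b3 := h.bal 3
  have e1 : (1 : ZMod 4) - 1 = 0 := by decide
  have e2 : (2 : ZMod 4) - 1 = 1 := by decide
  have e3 : (3 : ZMod 4) - 1 = 2 := by decide
  rw [e1] at b1
  rw [e2] at b2
  rw [e3] at b3
  have hle : pp P 0 ≤ m := by omega
  rw [pp_std hle]
  rcases zmod4 i with rfl | rfl | rfl | rfl
  · simp
  · have h1 : ¬ ((1 : ZMod 4) = 0 ∨ (1 : ZMod 4) = 2) := by decide
    rw [if_neg h1]
    omega
  · rw [if_pos (Or.inr rfl)]
    omega
  · have h1 : ¬ ((3 : ZMod 4) = 0 ∨ (3 : ZMod 4) = 2) := by decide
    rw [if_neg h1]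
    omega

lemma Bal.pp_le {m : ℕ} {P : Setoid (VV m)} (h : Bal P) (i : ZMod 4) : pp P i ≤ m := by
  have := h.bal i
  omega

lemma Bal.mem_orbit_std {m : ℕ} {P : Setoid (VV m)} (h : Bal P) :
    P ∈ orbit (GG m) (std m (pp P 0)) :=
  orbit_of_pp h (std_bal (h.pp_le 0)) h.pp_std_eq

lemma Bal.exists_std {n : ℕ} {P : Setoid (VV (2 * n + 1))} (h : Bal P) :
    ∃ p ≤ n, orbit (GG (2 * n + 1)) P = orbit (GG (2 * n + 1)) (std (2 * n + 1) p) := by
  by_cases hp : pp P 0 ≤ n
  · exact ⟨pp P 0, hp, orbit_eq h.mem_orbit_std⟩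
  · have h' := bal_refl h
    have hb := h.bal 0
    have e0 : -(0 : ZMod 4) - 1 = 0 - 1 := by decide
    have hpp : pp (P.comap (refl (2 * n + 1))) 0 = pp P (0 - 1) := by
      rw [pp_refl, e0]
    refine ⟨pp (P.comap (refl (2 * n + 1))) 0, by omega, ?_⟩
    have h2 : P.comap (refl (2 * n + 1)) ∈ orbit (GG (2 * n + 1)) P :=
      ⟨refl (2 * n + 1), fun x y => Iff.rfl⟩
    rw [← orbit_eq h'.mem_orbit_std, orbit_eq h2]

/-! ### Invariants separating the orbits -/

/-- number of vertices in the class of `x` having the same neighbours as `x` -/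
noncomputable def tau {m : ℕ} (P : Setoid (VV m)) (x : VV m) : ℕ :=
  {y | (∀ z, (GG m).Adj x z ↔ (GG m).Adj y z) ∧ P x y}.ncard

lemma tau_orbit {m : ℕ} {P Q : Setoid (VV m)} (h : Q ∈ orbit (GG m) P) (x : VV m) :
    ∃ x', tau P x' = tau Q x := by
  obtain ⟨φ, hφ⟩ := h
  refine ⟨φ x, ?_⟩
  unfold tau
  have : {y | (∀ z, (GG m).Adj (φ x) z ↔ (GG m).Adj y z) ∧ P (φ x) y} =
      φ '' {y | (∀ z, (GG m).Adj x z ↔ (GG m).Adj y z) ∧ Q x y} := by
    ext y
    constructor
    · rintro ⟨h1, h2⟩
      refine ⟨φ.symm y, ⟨fun z => ?_, ?_⟩, φ.apply_symm_apply y⟩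
      · have h3 := h1 (φ z)
        rw [φ.map_adj_iff] at h3
        rw [h3]
        conv_lhs => rw [← φ.apply_symm_apply y]
        exact φ.map_adj_iff
      · rw [hφ, φ.apply_symm_apply]
        exact h2
    · rintro ⟨y, ⟨h1, h2⟩, rfl⟩
      refine ⟨fun z => ?_, (hφ x y).1 h2⟩
      obtain ⟨z, rfl⟩ := φ.surjective z
      rw [φ.map_adj_iff, φ.map_adj_iff]
      exact h1 z
  rw [this, ncard_image_of_injective _ φ.injective]

lemma twin_inr {m : ℕ} {e : ZMod 4 × Fin m} {y : VV m}
    (h : ∀ z, (GG m).Adj (.inr e) z ↔ (GG m).Adj y z) : ∃ j, y = .inr (e.1, j) := by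
  have h1 := (h (.inl e.1)).1 (by simp [adj_rl])
  have h2 := (h (.inl (e.1 + 1))).1 (by simp [adj_rl])
  rcases y with i | ⟨a, j⟩
  · exact absurd h1 (by simp [adj_ll])
  · rw [adj_rl] at h1 h2
    simp only at h1 h2
    have hz : ∀ a b : ZMod 4, (b = a ∨ b = a + 1) → (b + 1 = a ∨ b + 1 = a + 1) → a = b := by
      decide
    rw [hz a e.1 h1 h2]
    exact ⟨j, rfl⟩

lemma twin_inl {m : ℕ} (hm : 1 ≤ m) {i : ZMod 4} {y : VV m}
    (h : ∀ z, (GG m).Adj (.inl i) z ↔ (GG m).Adj y z) : y = .inl i := by
  have h1 := (h (.inr (i, ⟨0, hm⟩))).1 (by simp [adj_lr])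
  have h2 := (h (.inr (i - 1, ⟨0, hm⟩))).1 (by simp [adj_lr])
  rcases y with i' | e
  · rw [adj_lr] at h1 h2
    simp only at h1 h2
    have hz : ∀ a b : ZMod 4, (b = a ∨ b = a + 1) → (b = a - 1 ∨ b = a - 1 + 1) → b = a := by
      decide
    rw [hz i i' h1 h2]
  · exact absurd h1 (by simp [adj_rr])

lemma tau_std_ge {n p : ℕ} (hp : p ≤ n) :
    2 * n + 1 - p ≤ tau (std (2 * n + 1) p) (.inr (0, ⟨2 * n, by omega⟩)) := by
  unfold tau
  rw [← ncard_ge (m := 2 * n + 1) (p := p) (by omega)]
  rw [← ncard_image_of_injective (f := fun j : Fin (2 * n + 1) => (.inr (0, j) : VV (2 * n + 1)))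
    _ (by intro a b h; simpa using h)]
  apply ncard_le_ncard _ (toFinite _)
  rintro _ ⟨j, hj, rfl⟩
  refine ⟨fun z => ?_, ?_⟩
  · rcases z with i | e
    · exact Iff.rfl
    · exact Iff.rfl
  · rw [std_iff]
    simp only [side]
    have h1 : ¬ ((0 : ZMod 4) = 1 ∨ (0 : ZMod 4) = 3) := by decide
    simp only [h1, true_or, true_and, false_and, or_false]
    have : p ≤ j.1 := hj
    constructor <;> intro h' <;> omega

lemma tau_std_le {n q : ℕ} (hq : q ≤ n) (x : VV (2 * n + 1)) :
    tau (std (2 * n + 1) q) x ≤ 2 * n + 1 - q := by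
  unfold tau
  rcases x with i | e
  · have hsub : {y | (∀ z, (GG (2 * n + 1)).Adj (.inl i) z ↔ (GG (2 * n + 1)).Adj y z) ∧
        (std (2 * n + 1) q) (.inl i) y} ⊆ {.inl i} := by
      rintro y ⟨h1, -⟩
      exact twin_inl (by omega) h1
    have := ncard_le_ncard hsub (toFinite _)
    rw [ncard_singleton] at this
    omega
  · have hsub : {y | (∀ z, (GG (2 * n + 1)).Adj (.inr e) z ↔ (GG (2 * n + 1)).Adj y z) ∧
        (std (2 * n + 1) q) (.inr e) y} ⊆
        (fun j : Fin (2 * n + 1) => (.inr (e.1, j) : VV (2 * n + 1))) ''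
          {j | side q (.inr e : VV (2 * n + 1)) ↔ side q (.inr (e.1, j) : VV (2 * n + 1))} := by
      rintro y ⟨h1, h2⟩
      obtain ⟨j, rfl⟩ := twin_inr h1
      rw [std_iff] at h2
      exact ⟨j, h2, rfl⟩
    have h1 := ncard_le_ncard hsub (toFinite _)
    have h2 := ncard_image_le
      (f := fun j : Fin (2 * n + 1) => (.inr (e.1, j) : VV (2 * n + 1)))
      (s := {j | side q (.inr e : VV (2 * n + 1)) ↔ side q (.inr (e.1, j) : VV (2 * n + 1))})
      (toFinite _)
    have h3 : {j | side q (.inr (e.1, j) : VV (2 * n + 1))}.ncard =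
        if e.1 = 0 ∨ e.1 = 2 then q else 2 * n + 1 - q := by
      rw [← pp_std (m := 2 * n + 1) (p := q) (by omega) e.1]
      unfold pp
      simp only [std_zero]
    have h4 := ncard_compl_fin (fun j : Fin (2 * n + 1) =>
      side q (.inr (e.1, j) : VV (2 * n + 1)))
    by_cases hs : side q (.inr e : VV (2 * n + 1))
    · simp only [hs, true_iff] at h1 h2
      split_ifs at h3 <;> omega
    · simp only [hs, false_iff] at h1 h2
      split_ifs at h3 <;> omega

lemma std_inj {n p q : ℕ} (hq : q ≤ n) (hpq : p < q) :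
    orbit (GG (2 * n + 1)) (std (2 * n + 1) p) ≠ orbit (GG (2 * n + 1)) (std (2 * n + 1) q) := by
  intro h
  have h1 : std (2 * n + 1) p ∈ orbit (GG (2 * n + 1)) (std (2 * n + 1) q) := by
    rw [← h]; exact mem_orbit_self _ _
  obtain ⟨x', hx'⟩ := tau_orbit h1 (.inr (0, ⟨2 * n, by omega⟩))
  have h2 := tau_std_ge (n := n) (p := p) (by omega)
  have h3 := tau_std_le hq x'
  omega

lemma bip_ne_std {m : ℕ} (hm : 1 ≤ m) {P : Setoid (VV m)} (hP : Bal P) :
    orbit (GG m) (bip m) ≠ orbit (GG m) P := by
  intro h
  have h1 : P ∈ orbit (GG m) (bip m) := by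
    rw [h]; exact mem_orbit_self _ _
  obtain ⟨φ, hφ⟩ := h1
  obtain ⟨e, he1, he2⟩ := hP.exists_mono hm
  rw [hφ, bip_iff] at he2
  have h3 : (GG m).Adj (φ (.inl 0)) (φ (.inr e)) := φ.map_adj_iff.2 he1
  generalize φ (.inl 0) = a at *
  generalize φ (.inr e) = b at *
  rcases a with i | f <;> rcases b with i' | f'
  · exact absurd h3 (by simp [adj_ll])
  · simp at he2
  · simp at he2
  · exact absurd h3 (by simp [adj_rr])

lemma num_GG (n : ℕ) : numIrreducible (GG (2 * n + 1)) = n + 2 := by
  unfold numIrreducible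
  have hset : {O : Set (Setoid (VV (2 * n + 1))) |
      ∃ P, IsIrreducible (GG (2 * n + 1)) P ∧ O = orbit (GG (2 * n + 1)) P} =
      insert (orbit (GG (2 * n + 1)) (bip (2 * n + 1)))
        ((fun p => orbit (GG (2 * n + 1)) (std (2 * n + 1) p)) '' Set.Iic n) := by
    ext O
    constructor
    · rintro ⟨P, hP, rfl⟩
      rw [irreducible_iff (by omega)] at hP
      rcases hP with rfl | hP
      · exact Or.inl rfl
      · right
        obtain ⟨p, hp, h⟩ := hP.exists_std
        exact ⟨p, hp, h.symm⟩
    · rintro (rfl | ⟨p, hp, rfl⟩)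
      · exact ⟨_, (irreducible_iff (by omega) _).2 (Or.inl rfl), rfl⟩
      · have hp' : p ≤ n := hp
        exact ⟨_, (irreducible_iff (by omega) _).2 (Or.inr (std_bal (by omega))), rfl⟩
  rw [hset, ncard_insert_of_notMem, Set.InjOn.ncard_image]
  · have : (Set.Iic n).ncard = n + 1 := by
      rw [Set.ncard_eq_toFinset_card']
      simp
    rw [this]
  · intro p hp q hq hpq
    have hp' : p ≤ n := hp
    have hq' : q ≤ n := hq
    rcases lt_trichotomy p q with h | h | h
    · exact absurd hpq (std_inj hq' h)
    · exact h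
    · exact absurd hpq.symm (std_inj hp' h)
  · rintro ⟨p, hp, h⟩
    have hp' : p ≤ n := hp
    exact bip_ne_std (by omega) (std_bal (by omega)) h.symm

/-! ### The case `b = 1` -/

lemma num_K2 : numIrreducible (⊤ : SimpleGraph (Fin 2)) = 1 := by
  classical
  have hbot : IsFATPartition (⊤ : SimpleGraph (Fin 2)) ⊥ := by
    refine ⟨2, id, ⟨1, by norm_num, by norm_num, ?_⟩, ?_⟩
    · intro v i
      have hd : deg (⊤ : SimpleGraph (Fin 2)) v = 1 := by
        unfold deg
        have : (⊤ : SimpleGraph (Fin 2)).neighborSet v = {1 - v} := by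
          ext w
          simp only [SimpleGraph.mem_neighborSet, SimpleGraph.top_adj, mem_singleton_iff]
          revert v w
          decide
        rw [this, ncard_singleton]
      rw [hd]
      constructor
      · intro hvi
        unfold nbrsIn
        have : (⊤ : SimpleGraph (Fin 2)).neighborSet v ∩ id ⁻¹' {i} = {i} := by
          ext w
          simp only [mem_inter_iff, SimpleGraph.mem_neighborSet, SimpleGraph.top_adj,
            mem_preimage, id, mem_singleton_iff]
          constructor
          · exact fun h => h.2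
          · rintro rfl
            exact ⟨hvi, rfl⟩
        rw [this, ncard_singleton]
        norm_num
      · intro hvi
        unfold nbrsIn
        have : (⊤ : SimpleGraph (Fin 2)).neighborSet v ∩ id ⁻¹' {i} = ∅ := by
          ext w
          simp only [mem_inter_iff, SimpleGraph.mem_neighborSet, SimpleGraph.top_adj,
            mem_preimage, id, mem_singleton_iff, mem_empty_iff_false, iff_false, not_and]
          intro h h'
          exact h (by rw [h']; exact hvi)
        rw [this, ncard_empty]
        norm_num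
    · ext x y
      simp [Setoid.ker_def]
  have hirr : ∀ P, IsIrreducible (⊤ : SimpleGraph (Fin 2)) P ↔ P = ⊥ := by
    intro P
    constructor
    · rintro ⟨-, hmax⟩
      exact (hmax ⊥ hbot bot_le).symm
    · rintro rfl
      exact ⟨hbot, fun Q _ hQ => le_bot_iff.1 hQ⟩
  unfold numIrreducible
  have : {O : Set (Setoid (Fin 2)) | ∃ P, IsIrreducible (⊤ : SimpleGraph (Fin 2)) P ∧
      O = orbit (⊤ : SimpleGraph (Fin 2)) P} = {orbit (⊤ : SimpleGraph (Fin 2)) ⊥} := by
    ext O
    constructor
    · rintro ⟨P, hP, rfl⟩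
      rw [hirr] at hP
      subst hP
      rfl
    · rintro rfl
      exact ⟨⊥, (hirr _).2 rfl, rfl⟩
  rw [this, ncard_singleton]

/-- **Main theorem.** For every positive integer `b` there is a finite connected simple graph having
exactly `b` irreducible FAT colorings (counted as partitions, up to automorphisms). -/
theorem result : ∀ b : ℕ, 1 ≤ b → ∃ (V : Type) (_ : Fintype V) (G : SimpleGraph V),
    G.Connected ∧ numIrreducible G = b := by
  intro b hb
  rcases hb.eq_or_lt with rfl | hb
  · exact ⟨Fin 2, inferInstance, ⊤, SimpleGraph.connected_top, num_K2⟩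
  · obtain ⟨n, rfl⟩ : ∃ n, b = n + 2 := ⟨b - 2, by omega⟩
    exact ⟨VV (2 * n + 1), inferInstance, GG (2 * n + 1), connected_GG (by omega), num_GG n⟩

end Pool.Agent.Results.MP_48b99b_co.IrreducibleFAT
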